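import Pool.Agent.KS7_39.D55.Top

/-!
# The fibre lemma for continuous maps
-/

set_option autoImplicit false

open scoped Manifold ContDiff Topology
open MeasureTheory Set Filter
open Pool.Agent.T6.H55.ST Pool.Agent.T6.H55.ST.Bas

namespace Pool.Agent.KS7_39.D55

theorem mods (E : Type) [NormedAddCommGroup E] [NormedSpace ℝ E] [FiniteDimensional ℝ E]
    (G : Type) [TopologicalSpace G] [ChartedSpace E G] [Group G] [LieGroup 𝓘(ℝ, E) ∞ G]
    [T2Space G] [SecondCountableTopology G] [ConnectedSpace G] [IsTopologicalGroup G] :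
    Asm.Mods E G := by
  have hJ := jac E G
  have hE := eigst E
  have hP := prt E
  have hB := brk E hE hP
  have hK := kil E hE hP hB
  have hL := alg E hE hP hB hK
  have hA := aid E G
  have hT := trv E G hJ hE hP hB (ucn G)
  have hF := Pool.Agent.T6.H55.ST.Fix.fix E G hJ hE hP hB hK hT hL
  have hGen := gen E G hJ hA hE hP hB
  have hAds := ads E G
  have hUni := uni E G
  have hAdc := adc E G hAds hUni
  have hCoo := coo E G
  have hKit := kit E G (Pool.Agent.T6.H55.ST.Ops.ops E G) hUni hAds hAdc hCoo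
  have hSmo := smo E G hKit hCoo (jac E G) hE hP hB
  exact ⟨hKit, hJ, hE, hP, hB, hF, hGen, pol E, Pool.Agent.T6.H55.ST.Rec.rec' G,
    Pool.Agent.T6.H55.ST.Mau.mau G, hSmo⟩

section Joint

variable {G : Type} [TopologicalSpace G] [Group G] [IsTopologicalGroup G] {Q : Subgroup G}
  {M : Type} [TopologicalSpace M] {M' : Type} [TopologicalSpace M']

theorem joint (φ : Q →* Multiplicative ℝ) (hφ : Continuous φ)
    (ρ : CFlow M) (ρ' : CFlow M') (h : Ind φ ρ → Ind φ ρ') (hc : Continuous h)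
    (κ : G → M → M') (hκ : ∀ g m, h (cls φ ρ (g, m)) = cls φ ρ' (g, κ g m)) :
    Continuous fun z : G × M => κ z.1 z.2 := by
  rw [continuous_iff_continuousAt]
  rintro ⟨g₀, m₀⟩ V hV
  have hV' : V ∈ 𝓝 (κ g₀ m₀) := hV
  have hR : Continuous fun x : Q × M' => ρ'.map (-(Multiplicative.toAdd (φ x.1))) x.2 := by
    have h1 : Continuous fun x : Q × M' => ((-(Multiplicative.toAdd (φ x.1)), x.2) : ℝ × M') := by
      refine Continuous.prodMk ?_ continuous_snd
      exact (continuous_toAdd.comp (hφ.comp continuous_fst)).neg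
    exact ρ'.cont.comp h1
  have hR0 : ρ'.map (-(Multiplicative.toAdd (φ (1 : Q)))) (κ g₀ m₀) = κ g₀ m₀ := by
    simp [ρ'.zero]
  have h1 : (fun x : Q × M' => ρ'.map (-(Multiplicative.toAdd (φ x.1))) x.2) ⁻¹' V ∈
      𝓝 (((1 : Q), κ g₀ m₀) : Q × M') := by
    apply hR.continuousAt.preimage_mem_nhds
    show V ∈ 𝓝 (ρ'.map (-(Multiplicative.toAdd (φ (1 : Q)))) (κ g₀ m₀))
    rw [hR0]
    exact hV'
  rw [nhds_prod_eq] at h1
  obtain ⟨N, hN, V', hV'n, hNV⟩ := Filter.mem_prod_iff.1 h1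
  rw [nhds_subtype_eq_comap] at hN
  obtain ⟨N', hN', hN'N⟩ := Filter.mem_comap.1 hN
  have h2 : (fun z : G × G => z.2⁻¹ * z.1) ⁻¹' N' ∈ 𝓝 ((g₀, g₀) : G × G) := by
    have hct : Continuous fun z : G × G => z.2⁻¹ * z.1 := by fun_prop
    apply hct.continuousAt.preimage_mem_nhds
    show N' ∈ 𝓝 (g₀⁻¹ * g₀)
    rw [inv_mul_cancel]
    exact hN'
  rw [nhds_prod_eq] at h2
  obtain ⟨A, hA, B, hB, hAB⟩ := Filter.mem_prod_iff.1 h2
  have hU : IsOpen (cls φ ρ' '' (interior B ×ˢ interior V')) :=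
    cls_open φ ρ' _ (isOpen_interior.prod isOpen_interior)
  have hct : Continuous fun z : G × M => h (cls φ ρ z) := hc.comp (cls_cont φ ρ)
  have hmem : h (cls φ ρ (g₀, m₀)) ∈ cls φ ρ' '' (interior B ×ˢ interior V') := by
    rw [hκ]
    exact ⟨(g₀, κ g₀ m₀), ⟨mem_interior_iff_mem_nhds.2 hB, mem_interior_iff_mem_nhds.2 hV'n⟩, rfl⟩
  have hA' : ∀ᶠ z : G × M in 𝓝 (g₀, m₀), z.1 ∈ A := by
    have : Continuous fun z : G × M => z.1 := continuous_fst
    exact this.continuousAt.preimage_mem_nhds hA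
  show ∀ᶠ z : G × M in 𝓝 (g₀, m₀), κ z.1 z.2 ∈ V
  filter_upwards [hct.continuousAt.preimage_mem_nhds (hU.mem_nhds hmem), hA'] with z hz hzA
  obtain ⟨⟨b, v⟩, ⟨hb, hv⟩, hbv⟩ := hz
  have h3 : cls φ ρ' (z.1, κ z.1 z.2) = cls φ ρ' (b, v) := by
    rw [hbv, ← hκ z.1 z.2]
  obtain ⟨q, hq1, hq2⟩ := (cls_eq φ ρ').1 h3
  have hq1' : b = z.1 * (q : G)⁻¹ := hq1
  have hq2' : v = ρ'.map (Multiplicative.toAdd (φ q)) (κ z.1 z.2) := hq2
  have hqN : q ∈ N := by
    apply hN'N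
    have h4 : (z.1, b) ∈ A ×ˢ B := ⟨hzA, interior_subset hb⟩
    have h5 : b⁻¹ * z.1 ∈ N' := hAB h4
    have h6 : b⁻¹ * z.1 = (q : G) := by rw [hq1']; group
    rw [h6] at h5
    exact h5
  have h7 : ρ'.map (-(Multiplicative.toAdd (φ q))) v ∈ V :=
    hNV (show (q, v) ∈ N ×ˢ V' from ⟨hqN, interior_subset hv⟩)
  rw [hq2', ← ρ'.add, neg_add_cancel, ρ'.zero] at h7
  exact h7

end Joint

section Main

variable {E : Type} [NormedAddCommGroup E] [NormedSpace ℝ E] [FiniteDimensional ℝ E]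
  {G : Type} [TopologicalSpace G] [ChartedSpace E G] [Group G] [LieGroup 𝓘(ℝ, E) ∞ G] [T2Space G]
  [IsTopologicalGroup G] [SecondCountableTopology G] [ConnectedSpace G]
  {M : Type} [TopologicalSpace M] {M' : Type} [TopologicalSpace M'] [T35Space M']

theorem fiber (hM : Asm.Mods E G) (hG : SimpleLie E G) (Q : Subgroup G) (hQpar : Parabolic E Q)
    (hQtop : Q ≠ ⊤) (φ : Q →* Multiplicative ℝ) (hφ : Continuous φ)
    (Γ : Subgroup G) (hΓ : Pool.Agent.T6.H55.ST.Lattice Γ)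
    (ρ : CFlow M) (ρ' : CFlow M') (h : Ind φ ρ → Ind φ ρ') (hc : Continuous h)
    (hh : ∀ γ ∈ Γ, ∀ x, h (act φ ρ γ x) = act φ ρ' γ (h x)) :
    ∃ k : M → M', Continuous k ∧ ∀ g m, h (cls φ ρ (g, m)) = cls φ ρ' (g, k m) := by
  obtain ⟨c, hcc, K⟩ := hM.kit
  obtain ⟨H, hH, hQ⟩ := id hQpar
  set q : Submodule ℝ E := part (ad E G) H (Ici 0) with hq
  obtain ⟨anti, jac⟩ := hM.jac _ _ c K
  have hqtop : q ≠ ⊤ := by
    intro hcon
    apply hQtop
    rw [eq_top_iff]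
    intro g _
    rw [hQ, hcon]
    exact mem_of_map K ⊤ g fun _ _ => trivial
  obtain ⟨n, b, l, hb⟩ := hM.eig _ H hH
  obtain ⟨P1, P2, P3⟩ := hM.prt _ H n b l hb
  -- one-parameter subgroups in `Q`
  have hQc : ∀ (r : ℝ) (X : E), 0 ≤ r → (ad E G) H X = r • X → ∀ t, c X t ∈ Q := by
    intro r X hr hX t
    rw [hQ]
    apply c_map_eq K
    intro Y hY
    refine hM.brk _ H hH anti jac {r} (Ici 0) (Ici 0) ?_ X ((P3 r X).2 hX) Y hY
    intro x hx y hy
    rw [mem_singleton_iff] at hx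
    rw [mem_Ici] at hy ⊢
    linarith
  have hHH : (ad E G) H H = (0 : ℝ) • H := by rw [K.ad_self, zero_smul]
  have hQH : ∀ t, c H t ∈ Q := hQc 0 H le_rfl hHH
  have hφc : ∀ (r : ℝ) (X : E) (hr : 0 < r) (hX : (ad E G) H X = r • X) (t : ℝ),
      φ ⟨c X t, hQc r X hr.le hX t⟩ = 1 := fun r X hr hX t =>
    Asm.phi_c (E := E) (G := G) K φ hφ H X r hr hX hQH (hQc r X hr.le hX) t
  -- representatives
  have hrep : ∀ (x : G × M) (y : G × M'), h (cls φ ρ x) = cls φ ρ' y → x.1⁻¹ * y.1 ∈ Q := by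
    intro x y hxy
    rw [hQ]
    refine hM.fix' _ _ c K hG.2 H hH hqtop (x.1⁻¹ * y.1) ?_
    intro r X t hr hX
    have hN : IsNilpotent (t • (ad E G) X) := by
      have h1 : (ad E G) (t • X) = t • (ad E G) X := map_smul _ _ _
      rw [← h1]
      refine Asm.nilp hM.eig hM.prt hM.brk _ H hH anti jac r hr (t • X) ?_
      rw [map_smul, hX, smul_comm]
    exact rec_step hM.rc hM.pol K q hQ φ Γ hΓ ρ ρ' h hc hh X t hN (hQc r X hr.le hX t)
      (hφc r X hr hX t) x y hxy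
  -- the fibre maps
  have hex : ∀ (g : G) (m : M), ∃ m' : M', h (cls φ ρ (g, m)) = cls φ ρ' (g, m') := by
    intro g m
    obtain ⟨y, hy⟩ := Quotient.exists_rep (h (cls φ ρ (g, m)))
    have hy' : h (cls φ ρ (g, m)) = cls φ ρ' y := hy.symm
    have h1 := hrep _ _ hy'
    refine ⟨ρ'.map (Multiplicative.toAdd (φ ⟨g⁻¹ * y.1, h1⟩)) y.2, ?_⟩
    rw [hy', cls_eq]
    exact ⟨⟨g⁻¹ * y.1, h1⟩, by simp, rfl⟩
  choose κ hκ using hex
  have hj := joint φ hφ ρ ρ' h hc κ hκ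
  -- continuity in the group variable
  have hcont : ∀ m : M, Continuous fun g : G => κ g m := by
    intro m
    have : Continuous fun g : G => ((g, m) : G × M) := by fun_prop
    exact hj.comp this
  -- invariance
  have hinvΓ : ∀ γ ∈ Γ, ∀ g m, κ (γ * g) m = κ g m := by
    intro γ hγ g m
    have h1 : h (cls φ ρ (γ * g, m)) = cls φ ρ' (γ * g, κ g m) := by
      have h2 := hh γ hγ (cls φ ρ (g, m))
      rw [act_cls, hκ g m, act_cls] at h2
      exact h2
    have h3 := hκ (γ * g) m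
    rw [h1] at h3
    exact (cls_inj φ ρ' _ _ _ h3).symm
  have hinvU : ∀ (r : ℝ) (X : E) (hr : 0 < r) (hX : (ad E G) H X = r • X) (t : ℝ) (g : G) (m : M),
      κ (g * c X t) m = κ g m := by
    intro r X hr hX t g m
    set p : Q := ⟨c X t, hQc r X hr.le hX t⟩ with hp
    have hp1 : φ p = 1 := hφc r X hr hX t
    have hp2 : φ p⁻¹ = 1 := by rw [map_inv, hp1, inv_one]
    have e : g * c X t = g * ((p⁻¹ : Q) : G)⁻¹ := by simp [hp]
    have h1 : h (cls φ ρ (g * c X t, m)) = cls φ ρ' (g * c X t, κ g m) := by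
      rw [e, cls_one φ ρ g m p⁻¹ hp2, cls_one φ ρ' g (κ g m) p⁻¹ hp2]
      exact hκ g m
    have h3 := hκ (g * c X t) m
    rw [h1] at h3
    exact (cls_inj φ ρ' _ _ _ h3).symm
  -- the fibre maps do not depend on the group variable
  have hconst : ∀ g m, κ g m = κ 1 m := by
    intro g m
    by_contra hne
    obtain ⟨f, hf, hf0, hf1⟩ := CompletelyRegularSpace.completely_regular (κ g m)
      {κ 1 m} isClosed_singleton (by simpa using hne)
    have hMau := hM.mau Γ hΓ (fun x => ((f (κ x m) : unitInterval) : ℝ)) (c H 1)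
      {u | ∃ r : ℝ, 0 < r ∧ ∃ X : E, (ad E G) H X = r • X ∧ ∃ t : ℝ, u = c X t}
      {u | ∃ r : ℝ, r < 0 ∧ ∃ X : E, (ad E G) H X = r • X ∧ ∃ t : ℝ, u = c X t}
      (continuous_subtype_val.comp (hf.comp (hcont m))) ?_ ?_ ?_ ?_ ?_ ?_ g
    · have e0 : f (κ g m) = 0 := hf0
      have e1 : f (κ 1 m) = 1 := hf1 rfl
      have : ((f (κ g m) : unitInterval) : ℝ) = ((f (κ 1 m) : unitInterval) : ℝ) := hMau
      rw [e0, e1] at this
      exact zero_ne_one this
    · refine ⟨1, fun g => ?_⟩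
      rw [abs_le]
      exact ⟨by linarith [(f (κ g m)).2.1], (f (κ g m)).2.2⟩
    · intro γ hγ g
      show ((f (κ (γ * g) m) : unitInterval) : ℝ) = ((f (κ g m) : unitInterval) : ℝ)
      rw [hinvΓ γ hγ]
    · rintro u ⟨r, hr, X, hX, t, rfl⟩ g
      show ((f (κ (g * c X t) m) : unitInterval) : ℝ) = ((f (κ g m) : unitInterval) : ℝ)
      rw [hinvU r X hr hX]
    · rintro u ⟨r, hr, X, hX, t, rfl⟩ k
      refine ⟨r, hr, X, hX, Real.exp ((k * 1 : ℝ) * r) * t, ?_⟩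
      rw [c_pow K, c_conj_eig K H X r hX]
    · rintro v ⟨r, hr, X, hX, t, rfl⟩
      have h1 : ∀ k : ℕ, c H 1 ^ k * c X t * (c H 1 ^ k)⁻¹ = c X (Real.exp ((k * 1 : ℝ) * r) * t) := by
        intro k
        rw [c_pow K, c_conj_eig K H X r hX]
      simp_rw [h1]
      have h2 : Tendsto (fun k : ℕ => Real.exp ((k * 1 : ℝ) * r) * t) atTop (𝓝 0) := by
        have h3 : Tendsto (fun k : ℕ => ((k : ℝ) * 1) * r) atTop atBot := by
          simp_rw [mul_one]
          exact tendsto_natCast_atTop_atTop.atTop_mul_const_of_neg hr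
        have h4 := (Real.tendsto_exp_atBot.comp h3).mul_const t
        simpa using h4
      have h5 := ((K.c_cont X).tendsto 0).comp h2
      rw [K.c_zero] at h5
      exact h5
    · rw [eq_top_iff, ← hM.gen _ _ c K hG.2 H hH hqtop]
      apply Subgroup.closure_mono
      rintro u ⟨r, hr, X, hX, t, rfl⟩
      rcases lt_or_gt_of_ne hr with h1 | h1
      · exact Or.inr ⟨r, h1, X, hX, t, rfl⟩
      · exact Or.inl ⟨r, h1, X, hX, t, rfl⟩
  -- conclusion
  refine ⟨fun m => κ 1 m, ?_, fun g m => by rw [hκ g m, hconst g m]⟩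
  have : Continuous fun m : M => (((1 : G), m) : G × M) := by fun_prop
  exact hj.comp this

end Main

end Pool.Agent.KS7_39.D55
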