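import Pool.Graph.R_pool_sql_team_seeded_47a924f7.T6.H55.ST.Asm3
import Pool.Graph.R_pool_sql_team_seeded_47a924f7.T6.H55.ST.Jac
import Pool.Graph.R_pool_sql_team_seeded_47a924f7.T6.H55.ST.Aid
import Pool.Graph.R_pool_sql_team_seeded_47a924f7.T6.H55.ST.Gen
import Pool.Graph.R_pool_sql_team_seeded_47a924f7.T6.H55.ST.Trv
import Pool.Graph.R_pool_sql_team_seeded_47a924f7.T6.H55.ST.Fix
import Pool.Graph.R_pool_sql_team_seeded_47a924f7.T6.H55.ST.Pol
import Pool.Graph.R_pool_sql_team_seeded_47a924f7.T6.H55.ST.Eig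
import Pool.Graph.R_pool_sql_team_seeded_47a924f7.T6.H55.ST.Prt
import Pool.Graph.R_pool_sql_team_seeded_47a924f7.T6.H55.ST.Brk
import Pool.Graph.R_pool_sql_team_seeded_47a924f7.T6.H55.ST.Kil
import Pool.Graph.R_pool_sql_team_seeded_47a924f7.T6.H55.ST.Alg
import Pool.Graph.R_pool_sql_team_seeded_47a924f7.T6.H55.ST.Ucn
import Pool.Graph.R_pool_sql_team_seeded_47a924f7.T6.H55.ST.Rec
import Pool.Graph.R_pool_sql_team_seeded_47a924f7.T6.H55.ST.Mau
import Pool.Graph.R_pool_sql_team_seeded_47a924f7.T6.H55.ST.Ops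
import Pool.Graph.R_pool_sql_team_seeded_47a924f7.T6.H55.ST.Uni
import Pool.Graph.R_pool_sql_team_seeded_47a924f7.T6.H55.ST.Ads
import Pool.Graph.R_pool_sql_team_seeded_47a924f7.T6.H55.ST.Adc
import Pool.Graph.R_pool_sql_team_seeded_47a924f7.T6.H55.ST.Coo
import Pool.Graph.R_pool_sql_team_seeded_47a924f7.T6.H55.ST.Kit
import Pool.Graph.R_pool_sql_team_seeded_47a924f7.T6.H55.ST.Smo

/-!
# Continuous maps between parabolically induced actions

Topological version of the fibre lemma, for continuous flows on topological spaces and continuous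
maps for the quotient topologies.
-/

set_option autoImplicit false

open scoped Manifold ContDiff Topology
open MeasureTheory Set Filter
open Pool.Agent.T6.H55.ST Pool.Agent.T6.H55.ST.Bas

namespace Pool.Agent.KS7_39.D55

/-- A continuous flow on a topological space: a continuous action of the reals. -/
structure CFlow (M : Type) [TopologicalSpace M] where
  map : ℝ → M → M
  cont : Continuous (fun p : ℝ × M => map p.1 p.2)
  zero : ∀ m, map 0 m = m
  add : ∀ s t m, map (s + t) m = map s (map t m)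

section Def

variable {G : Type} [Group G] {Q : Subgroup G} {M : Type} [TopologicalSpace M]

/-- The orbit relation of the action `q (g, m) = (g q⁻¹, ρ (φ q) m)` of `Q` on `G × M`. -/
def orb (φ : Q →* Multiplicative ℝ) (ρ : CFlow M) : Setoid (G × M) where
  r x y := ∃ q : Q, y.1 = x.1 * (q : G)⁻¹ ∧ y.2 = ρ.map (Multiplicative.toAdd (φ q)) x.2
  iseqv := by
    refine ⟨fun x => ⟨1, by simp, by simp [ρ.zero]⟩, ?_, ?_⟩
    · rintro x y ⟨q, h1, h2⟩
      refine ⟨q⁻¹, by simp [h1], ?_⟩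
      rw [h2, ← ρ.add]
      simp [ρ.zero]
    · rintro x y z ⟨q, h1, h2⟩ ⟨r, h3, h4⟩
      refine ⟨r * q, by simp [h1, h3, mul_assoc], ?_⟩
      rw [h4, h2, ← ρ.add]
      simp

/-- The space `(G × M) / Q` of the parabolically induced action. -/
def Ind (φ : Q →* Multiplicative ℝ) (ρ : CFlow M) : Type := Quotient (orb φ ρ)

/-- The quotient topology on `(G × M) / Q`. -/
instance indTop [TopologicalSpace G] (φ : Q →* Multiplicative ℝ) (ρ : CFlow M) :
    TopologicalSpace (Ind φ ρ) :=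
  inferInstanceAs (TopologicalSpace (Quotient (orb φ ρ)))

/-- The class of a point. -/
def cls (φ : Q →* Multiplicative ℝ) (ρ : CFlow M) (x : G × M) : Ind φ ρ := Quotient.mk (orb φ ρ) x

/-- The action of `G` on `(G × M) / Q`, by left multiplication on the first factor. -/
def act (φ : Q →* Multiplicative ℝ) (ρ : CFlow M) (g : G) : Ind φ ρ → Ind φ ρ :=
  Quotient.map' (s₁ := orb φ ρ) (s₂ := orb φ ρ) (fun x => (g * x.1, x.2)) (by
    rintro x y ⟨q, h1, h2⟩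
    exact ⟨q, by simp [h1, mul_assoc], h2⟩)

end Def

section Cls

variable {G : Type} [Group G] {Q : Subgroup G} {M : Type} [TopologicalSpace M]
  (φ : Q →* Multiplicative ℝ) (ρ : CFlow M)

theorem cls_eq {x y : G × M} : cls φ ρ x = cls φ ρ y ↔
    ∃ q : Q, y.1 = x.1 * (q : G)⁻¹ ∧ y.2 = ρ.map (Multiplicative.toAdd (φ q)) x.2 :=
  ⟨fun h => Quotient.exact h, fun h => Quotient.sound h⟩

theorem cls_q (g : G) (m : M) (q : Q) :
    cls φ ρ (g * (q : G)⁻¹, ρ.map (Multiplicative.toAdd (φ q)) m) = cls φ ρ (g, m) :=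
  ((cls_eq φ ρ).2 ⟨q, rfl, rfl⟩).symm

theorem cls_one (g : G) (m : M) (q : Q) (h : φ q = 1) :
    cls φ ρ (g * (q : G)⁻¹, m) = cls φ ρ (g, m) := by
  have := cls_q φ ρ g m q
  rw [h] at this
  simpa [ρ.zero] using this

theorem act_cls (g : G) (x : G × M) : act φ ρ g (cls φ ρ x) = cls φ ρ (g * x.1, x.2) := rfl

theorem cls_inj (g : G) (m m' : M) (h : cls φ ρ (g, m) = cls φ ρ (g, m')) : m = m' := by
  obtain ⟨q, h1, h2⟩ := (cls_eq φ ρ).1 h
  have h3 : (q : G) = 1 := by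
    have h1' : g = g * (q : G)⁻¹ := h1
    have h5 : (q : G)⁻¹ = 1 := mul_left_cancel (a := g) (by rw [← h1', mul_one])
    exact inv_eq_one.1 h5
  have h4 : q = 1 := Subtype.ext h3
  rw [h4, map_one] at h2
  have h2' : m' = ρ.map (Multiplicative.toAdd (1 : Multiplicative ℝ)) m := h2
  simpa [ρ.zero] using h2'.symm

theorem cls_cont [TopologicalSpace G] : Continuous (cls φ ρ) := continuous_quotient_mk'

theorem map_cont (t : ℝ) : Continuous (ρ.map t) := by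
  have : Continuous fun m : M => ((t, m) : ℝ × M) := by fun_prop
  exact ρ.cont.comp this

theorem cls_open [TopologicalSpace G] [IsTopologicalGroup G] : IsOpenMap (cls φ ρ) := by
  intro U hU
  have hq : Topology.IsQuotientMap (cls φ ρ) := isQuotientMap_quot_mk
  rw [← hq.isOpen_preimage]
  have e : cls φ ρ ⁻¹' (cls φ ρ '' U) =
      ⋃ q : Q, {x : G × M | (x.1 * (q : G)⁻¹, ρ.map (Multiplicative.toAdd (φ q)) x.2) ∈ U} := by
    ext x
    simp only [mem_preimage, mem_image, mem_iUnion, mem_setOf_eq]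
    constructor
    · rintro ⟨y, hy, hyx⟩
      obtain ⟨q, h1, h2⟩ := (cls_eq φ ρ).1 hyx.symm
      refine ⟨q, ?_⟩
      rw [← h1, ← h2]
      exact hy
    · rintro ⟨q, hq⟩
      exact ⟨_, hq, cls_q φ ρ x.1 x.2 q⟩
  rw [e]
  refine isOpen_iUnion fun q => ?_
  have hc : Continuous fun x : G × M =>
      (x.1 * (q : G)⁻¹, ρ.map (Multiplicative.toAdd (φ q)) x.2) := by
    refine Continuous.prodMk (by fun_prop) ?_
    exact (map_cont ρ _).comp continuous_snd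
  exact hU.preimage hc

end Cls

section Rec

variable {E : Type} [NormedAddCommGroup E] [NormedSpace ℝ E] [FiniteDimensional ℝ E]
  {G : Type} [TopologicalSpace G] [Group G] [T2Space G]
  [IsTopologicalGroup G] [SecondCountableTopology G]
  {Ad : G → E →L[ℝ] E} {ad : E →L[ℝ] (E →L[ℝ] E)} {c : E → ℝ → G}
  {M : Type} [TopologicalSpace M] {M' : Type} [TopologicalSpace M']

theorem near {Q : Subgroup G} (φ : Q →* Multiplicative ℝ) (ρ : CFlow M) (ρ' : CFlow M')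
    (h : Ind φ ρ → Ind φ ρ') (hc : Continuous h) (m : M) (g₀ b₀ : G) (m₀ : M')
    (h0 : h (cls φ ρ (g₀, m)) = cls φ ρ' (b₀, m₀)) (B : Set G) (hB : B ∈ 𝓝 b₀) :
    ∀ᶠ g in 𝓝 g₀, ∃ b ∈ B, ∃ m', h (cls φ ρ (g, m)) = cls φ ρ' (b, m') := by
  have hU : IsOpen (cls φ ρ' '' (interior B ×ˢ (univ : Set M'))) :=
    cls_open φ ρ' _ (isOpen_interior.prod isOpen_univ)
  have hct : Continuous fun g : G => h (cls φ ρ (g, m)) :=
    hc.comp ((cls_cont φ ρ).comp (by fun_prop))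
  have hmem : h (cls φ ρ (g₀, m)) ∈ cls φ ρ' '' (interior B ×ˢ (univ : Set M')) := by
    rw [h0]
    exact ⟨(b₀, m₀), ⟨mem_interior_iff_mem_nhds.2 hB, mem_univ _⟩, rfl⟩
  filter_upwards [hct.continuousAt.preimage_mem_nhds (hU.mem_nhds hmem)] with g hg
  obtain ⟨⟨b, m'⟩, ⟨hb, -⟩, hbm⟩ := hg
  exact ⟨b, interior_subset hb, m', hbm.symm⟩

theorem rec_step (hRec : StmREC G) (hPol : StmPOL E) (K : IsKit Ad ad c) {Q : Subgroup G}
    (q : Submodule ℝ E) (hQ : ∀ g : G, g ∈ Q ↔ q.map (Ad g : E →ₗ[ℝ] E) = q)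
    (φ : Q →* Multiplicative ℝ) (Γ : Subgroup G) (hΓ : Pool.Agent.T6.H55.ST.Lattice Γ)
    (ρ : CFlow M) (ρ' : CFlow M') (h : Ind φ ρ → Ind φ ρ') (hc : Continuous h)
    (hh : ∀ γ ∈ Γ, ∀ x, h (act φ ρ γ x) = act φ ρ' γ (h x))
    (X : E) (t : ℝ) (hN : IsNilpotent (t • ad X)) (hu : c X t ∈ Q) (hφu : φ ⟨c X t, hu⟩ = 1)
    (x : G × M) (y : G × M') (hxy : h (cls φ ρ x) = cls φ ρ' y) :
    q.map (Ad ((x.1⁻¹ * y.1)⁻¹ * c X t * (x.1⁻¹ * y.1)) : E →ₗ[ℝ] E) = q := by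
  obtain ⟨g, m⟩ := x
  obtain ⟨b, m₁⟩ := y
  set u := c X t with hudef
  have hclq : IsClosed (q : Set E) := q.closed_of_finiteDimensional
  -- the claim at recurrent points
  have main1 : ∀ (g' b' : G) (m' : M'), h (cls φ ρ (g', m)) = cls φ ρ' (b', m') →
      (∀ O ∈ 𝓝 g', ∀ n₀ : ℕ, ∃ n, n₀ ≤ n ∧ ∃ γ ∈ Γ, γ * g' * (u ^ n)⁻¹ ∈ O) →
      ∀ Y ∈ q, Ad ((g'⁻¹ * b')⁻¹ * u * (g'⁻¹ * b')) Y ∈ q := by
    intro g' b' m' hg' hrec
    obtain ⟨O, hO⟩ := (𝓝 g').exists_antitone_basis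
    obtain ⟨P, hP⟩ := (𝓝 b').exists_antitone_basis
    have hch : ∀ k : ℕ, ∃ n, k ≤ n ∧ ∃ γ ∈ Γ,
        γ * g' * (u ^ n)⁻¹ ∈ O k ∩
          {z : G | ∃ b ∈ P k, ∃ m', h (cls φ ρ (z, m)) = cls φ ρ' (b, m')} := fun k =>
      hrec _ (inter_mem (hO.toHasBasis.mem_of_mem trivial)
        (near φ ρ ρ' h hc m g' b' m' hg' (P k) (hP.toHasBasis.mem_of_mem trivial))) k
    choose n hn γ hγ hz using hch
    set z : ℕ → G := fun k => γ k * g' * (u ^ n k)⁻¹ with hzdef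
    have hzt : Tendsto z atTop (𝓝 g') := hO.tendsto fun k => (hz k).1
    have hz2 : ∀ k, ∃ b ∈ P k, ∃ m', h (cls φ ρ (z k, m)) = cls φ ρ' (b, m') := fun k => (hz k).2
    choose v hv mv hvm using hz2
    have hvt : Tendsto v atTop (𝓝 b') := hP.tendsto fun k => hv k
    set a : G := g'⁻¹ * b' with ha
    set w : ℕ → G := fun k => (z k)⁻¹ * v k with hwdef
    have hwt : Tendsto w atTop (𝓝 a) := hzt.inv.mul hvt
    have hwk : ∀ k, ∃ p : Q, w k = u ^ n k * a * (p : G)⁻¹ := by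
      intro k
      have h1 : h (cls φ ρ (z k, m)) = cls φ ρ' (v k, mv k) := hvm k
      have hun : u ^ n k ∈ Q := Q.pow_mem hu _
      have hφn : φ ⟨u ^ n k, hun⟩ = 1 := by
        have e : (⟨u ^ n k, hun⟩ : Q) = (⟨u, hu⟩ : Q) ^ n k := rfl
        rw [e, map_pow, hφu, one_pow]
      have h2 : cls φ ρ (z k, m) = act φ ρ (γ k) (cls φ ρ (g', m)) := by
        rw [← cls_one φ ρ g' m ⟨u ^ n k, hun⟩ hφn, act_cls]
        simp only [hzdef, mul_assoc]
      rw [h2, hh _ (hγ k), hg', act_cls] at h1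
      obtain ⟨p, hp1, -⟩ := (cls_eq φ ρ').1 h1
      refine ⟨p, ?_⟩
      have hp1' : v k = γ k * b' * (p : G)⁻¹ := hp1
      simp only [hwdef, ha]
      rw [hp1']
      simp only [hzdef]
      group
    have hWm2 : ∀ k, (q.map (Ad a : E →ₗ[ℝ] E)).map (Ad (w k * a⁻¹) : E →ₗ[ℝ] E) =
        (q.map (Ad a : E →ₗ[ℝ] E)).map
          ((NormedSpace.exp ((n k : ℝ) • (t • ad X)) : E →L[ℝ] E) : E →ₗ[ℝ] E) := by
      intro k
      obtain ⟨p, hp⟩ := hwk k
      have e1 : NormedSpace.exp ((n k : ℝ) • (t • ad X)) = Ad (u ^ n k) := by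
        rw [hudef, c_pow K, K.Ad_c, smul_smul]
      rw [e1, ← map_Ad_mul K, ← map_Ad_mul K, inv_mul_cancel_right, hp, map_Ad_mul K _ (p : G)⁻¹,
        (hQ _).1 (Q.inv_mem p.2)]
    have hT : Tendsto (fun k => Ad (w k * a⁻¹)) atTop (𝓝 (ContinuousLinearMap.id ℝ E)) := by
      have h1 : Tendsto (fun k => w k * a⁻¹) atTop (𝓝 (a * a⁻¹)) := hwt.mul_const _
      rw [mul_inv_cancel] at h1
      have h2 := (K.Ad_cont.tendsto 1).comp h1
      rw [K.Ad_one] at h2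
      exact h2
    have hnt : Tendsto n atTop atTop := tendsto_atTop_mono hn tendsto_id
    have h3 := hPol (t • ad X) hN (q.map (Ad a : E →ₗ[ℝ] E)) (fun k => Ad (w k * a⁻¹)) n hT hnt hWm2
    rw [← K.Ad_c, ← hudef] at h3
    have h4 : q.map (Ad (a⁻¹ * u * a) : E →ₗ[ℝ] E) = q := by
      rw [mul_assoc, map_Ad_mul K, map_Ad_mul K, h3, ← map_Ad_mul K, inv_mul_cancel, map_Ad_one K]
    intro Y hY
    have : Ad (a⁻¹ * u * a) Y ∈ q.map (Ad (a⁻¹ * u * a) : E →ₗ[ℝ] E) := ⟨Y, hY, rfl⟩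
    rwa [h4] at this
  -- all points
  have main2 : ∀ Y ∈ q, Ad ((g⁻¹ * b)⁻¹ * u * (g⁻¹ * b)) Y ∈ q := by
    intro Y hY
    by_contra hcon
    have hcont : Continuous (fun z : G × G =>
        Ad ((z.1⁻¹ * z.2)⁻¹ * u * (z.1⁻¹ * z.2)) Y) := by
      have h4 : Continuous (fun z : G × G => (z.1⁻¹ * z.2)⁻¹ * u * (z.1⁻¹ * z.2)) := by
        fun_prop
      exact (ContinuousLinearMap.apply ℝ E Y).continuous.comp (K.Ad_cont.comp h4)
    have h1 : ∀ᶠ z in 𝓝 ((g, b) : G × G),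
        Ad ((z.1⁻¹ * z.2)⁻¹ * u * (z.1⁻¹ * z.2)) Y ∈ (q : Set E)ᶜ :=
      hcont.continuousAt.eventually (hclq.isOpen_compl.mem_nhds hcon)
    rw [nhds_prod_eq] at h1
    obtain ⟨A, hA, B, hB, hAB⟩ := Filter.mem_prod_iff.1 h1
    have h2 := near φ ρ ρ' h hc m g b m₁ hxy B hB
    obtain ⟨g', hg'1, hg'2⟩ := (hRec Γ hΓ u).inter_nhds_nonempty (Filter.inter_mem hA h2)
    obtain ⟨hg'A, b', hb'B, m', hm'⟩ := hg'2
    have h3 := main1 g' b' m' hm' hg'1 Y hY
    exact hAB (Set.mk_mem_prod hg'A hb'B) h3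
  exact mem_of_map K q _ main2

end Rec

end Pool.Agent.KS7_39.D55
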